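import Pool.Agent.Helper40.MR.Defs

/-!
# Module HAL: Halasz's theorem (qualitative form)
-/

set_option autoImplicit false

open Finset MeasureTheory Filter
open scoped BigOperators Nat

namespace Pool.Agent.Helper40.MR

theorem hal_norm (g : ℕ → ℂ) (hg : ∀ n, ‖g n‖ ≤ 1) (a b : ℕ) (h : a ≤ b) :
    ‖∑ n ∈ Icc 1 b, g n - ∑ n ∈ Icc 1 a, g n‖ ≤ (b : ℝ) - a := by
  have h1 : ∑ n ∈ Icc 1 b, g n = ∑ n ∈ Icc 1 a, g n + ∑ n ∈ Ioc a b, g n := by
    rw [← Finset.sum_union]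
    · congr 1
      ext n
      simp only [mem_union, mem_Icc, mem_Ioc]
      omega
    · rw [Finset.disjoint_left]
      intro n hn hn'
      rw [mem_Icc] at hn
      rw [mem_Ioc] at hn'
      omega
  rw [h1, add_sub_cancel_left]
  calc ‖∑ n ∈ Ioc a b, g n‖ ≤ ∑ n ∈ Ioc a b, ‖g n‖ := norm_sum_le _ _
    _ ≤ ∑ n ∈ Ioc a b, (1 : ℝ) := Finset.sum_le_sum fun n _ => hg n
    _ = (b : ℝ) - a := by
      rw [Finset.sum_const, Nat.card_Ioc, nsmul_eq_mul, mul_one, Nat.cast_sub h]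

theorem hal_F (g : ℕ → ℂ) (hg : ∀ n, ‖g n‖ ≤ 1) :
    Measurable (fun u => ‖Sg g u‖) ∧ (∀ u, 0 ≤ u → 0 ≤ ‖Sg g u‖ ∧ ‖Sg g u‖ ≤ u) ∧
    (∀ u v, 0 ≤ u → 0 ≤ v → |‖Sg g u‖ - ‖Sg g v‖| ≤ |u - v| + 1) := by
  refine ⟨?_, ?_, ?_⟩
  · have h1 : Measurable (fun n : ℕ => ‖∑ k ∈ Icc 1 n, g k‖) := measurable_from_nat
    exact h1.comp Nat.measurable_floor
  · intro u hu
    refine ⟨norm_nonneg _, ?_⟩
    have h1 := hal_norm g hg 0 ⌊u⌋₊ (Nat.zero_le _)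
    rw [show Icc 1 0 = (∅ : Finset ℕ) by rfl, Finset.sum_empty, sub_zero, Nat.cast_zero,
      sub_zero] at h1
    exact h1.trans (Nat.floor_le hu)
  · have key : ∀ u v, 0 ≤ u → u ≤ v → |‖Sg g u‖ - ‖Sg g v‖| ≤ |u - v| + 1 := by
      intro u v hu huv
      have h1 := hal_norm g hg ⌊u⌋₊ ⌊v⌋₊ (Nat.floor_mono huv)
      have h2 : |‖Sg g u‖ - ‖Sg g v‖| ≤ ‖Sg g u - Sg g v‖ := abs_norm_sub_norm_le _ _
      rw [norm_sub_rev] at h2
      have h3 := Nat.floor_le (hu.trans huv)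
      have h4 := Nat.lt_floor_add_one u
      have h5 : |u - v| = v - u := by
        rw [abs_sub_comm, abs_of_nonneg (by linarith)]
      rw [h5]
      have h6 : ‖Sg g v - Sg g u‖ ≤ (⌊v⌋₊ : ℝ) - ⌊u⌋₊ := h1
      linarith
    intro u v hu hv
    rcases le_total u v with h | h
    · exact key u v hu h
    · have := key v u hv h
      rw [abs_sub_comm, abs_sub_comm u v]
      exact this

/-- sum of `min (2^i, T^2 / 2^i)` -/
theorem hal_geom (T : ℝ) (hT : 0 ≤ T) (n : ℕ) :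
    (∑ i ∈ range n, min ((2 : ℝ) ^ i) (T ^ 2 / 2 ^ i) ≤ 2 ^ n) ∧
    (T ≤ 2 ^ n → ∑ i ∈ range n, min ((2 : ℝ) ^ i) (T ^ 2 / 2 ^ i) ≤ 4 * T - 2 * T ^ 2 / 2 ^ n) := by
  induction n with
  | zero =>
    simp only [range_zero, sum_empty, pow_zero, div_one]
    refine ⟨by norm_num, fun h => ?_⟩
    nlinarith
  | succ n ih =>
    obtain ⟨ih1, ih2⟩ := ih
    have hp : (0 : ℝ) < 2 ^ n := by positivity
    rw [sum_range_succ]
    have h1 := min_le_left ((2 : ℝ) ^ n) (T ^ 2 / 2 ^ n)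
    have h2 := min_le_right ((2 : ℝ) ^ n) (T ^ 2 / 2 ^ n)
    have h3 : ∑ i ∈ range n, min ((2 : ℝ) ^ i) (T ^ 2 / 2 ^ i) + min ((2 : ℝ) ^ n) (T ^ 2 / 2 ^ n) ≤
        2 ^ (n + 1) := by
      rw [pow_succ (2 : ℝ) n]
      linarith
    refine ⟨h3, fun h => ?_⟩
    rcases le_or_gt T (2 ^ n) with h4 | h4
    · have h5 := ih2 h4
      have h6 : 2 * T ^ 2 / 2 ^ (n + 1) = T ^ 2 / 2 ^ n := by
        rw [pow_succ (2 : ℝ) n]
        field_simp
      have h7 : 2 * T ^ 2 / 2 ^ n = 2 * (T ^ 2 / 2 ^ n) := by ring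
      rw [h6]
      rw [h7] at h5
      linarith
    · refine h3.trans ?_
      have hq : (0 : ℝ) < 2 ^ (n + 1) := by positivity
      have hle : (2 : ℝ) ^ (n + 1) < 2 * T := by
        rw [pow_succ (2 : ℝ) n]
        linarith
      rw [le_sub_iff_add_le, ← sub_nonneg]
      have h8 : 4 * T - (2 ^ (n + 1) + 2 * T ^ 2 / 2 ^ (n + 1)) =
          (2 * T ^ 2 - (2 * T - 2 ^ (n + 1)) ^ 2) / 2 ^ (n + 1) := by
        field_simp
        ring
      rw [h8]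
      apply div_nonneg _ hq.le
      nlinarith

theorem hal_geom' (T : ℝ) (hT : 0 ≤ T) (n : ℕ) :
    ∑ i ∈ range n, min ((2 : ℝ) ^ i) (T ^ 2 / 2 ^ i) ≤ 4 * T := by
  obtain ⟨h1, h2⟩ := hal_geom T hT n
  rcases le_or_gt T (2 ^ n) with h | h
  · have h3 := h2 h
    have h4 : 0 ≤ 2 * T ^ 2 / 2 ^ n := by positivity
    linarith
  · linarith

theorem st_HAL (h1 : ST_H1) (h2 : ST_H2) (h3 : ST_H3) (h4 : ST_H4) (h5 : ST_H5) : ST_HAL := by
  obtain ⟨C1, hC1, H1⟩ := h1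
  obtain ⟨C2, hC2, H2⟩ := h2
  obtain ⟨C3, hC3, H3⟩ := h3
  obtain ⟨C4, hC4, H4⟩ := h4
  obtain ⟨C5, hC5, H5⟩ := h5
  have hs4 : 0 < Real.sqrt C4 := Real.sqrt_pos.2 hC4
  refine ⟨4 * C2 * C3 * Real.sqrt C4 * C5 + C2 + 1, by positivity, ?_⟩
  intro h hh
  obtain ⟨x₀, hx₀⟩ := H2 h hh
  -- eventual estimates
  have hlog : Tendsto Real.log atTop atTop := Real.tendsto_log_atTop
  have e1 : ∀ᶠ x : ℝ in atTop, (Real.log x) ^ 3 ≤ Real.sqrt x := by
    have h6 : (fun x : ℝ => (Real.log x) ^ (3 : ℕ)) =o[atTop] fun x => x ^ (1 / 2 : ℝ) := by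
      have := isLittleO_log_rpow_rpow_atTop (3 : ℝ) (show (0 : ℝ) < 1 / 2 by norm_num)
      refine this.congr' ?_ (EventuallyEq.refl _ _)
      filter_upwards [] with x
      norm_cast
    have h7 := h6.bound (show (0 : ℝ) < 1 by norm_num)
    filter_upwards [h7, eventually_ge_atTop (1 : ℝ)] with x hx hx1
    rw [one_mul, Real.norm_of_nonneg (pow_nonneg (Real.log_nonneg hx1) 3),
      Real.norm_of_nonneg (Real.rpow_nonneg (by linarith) _)] at hx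
    rw [Real.sqrt_eq_rpow]
    exact hx
  have e2 : ∀ᶠ x : ℝ in atTop, C2 * C3 * (1 + Real.log (Real.log x)) + C2 * C3 * Real.sqrt C4 + C1 ≤
      Real.log x / h := by
    have h6 : (fun y : ℝ => C2 * C3 * (1 + Real.log y) + C2 * C3 * Real.sqrt C4 + C1) =o[atTop]
        fun y => y := by
      have h7 : (fun y : ℝ => Real.log y) =o[atTop] fun y => y := Real.isLittleO_log_id_atTop
      have h8 : (fun _ : ℝ => C2 * C3 + C2 * C3 * Real.sqrt C4 + C1) =o[atTop] fun y : ℝ => y :=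
        Asymptotics.isLittleO_const_left.2 (Or.inr (tendsto_norm_atTop_atTop))
      have h9 := (h7.const_mul_left (C2 * C3)).add h8
      refine h9.congr_left fun y => ?_
      ring
    have h7 := h6.bound (show (0 : ℝ) < 1 / h by positivity)
    filter_upwards [hlog.eventually h7, hlog.eventually_ge_atTop (0 : ℝ)] with x hx hx0
    have h8 := (le_abs_self _).trans (Real.norm_eq_abs _ ▸ hx)
    rw [Real.norm_of_nonneg hx0] at h8
    calc C2 * C3 * (1 + Real.log (Real.log x)) + C2 * C3 * Real.sqrt C4 + C1 ≤ 1 / h * Real.log x := h8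
      _ = Real.log x / h := by ring
  obtain ⟨x1, hx1⟩ := eventually_atTop.1 (e1.and e2)
  refine ⟨max x₀ (max x1 16), ?_⟩
  intro x hx g B hg hB hdist
  have hxx0 : x₀ ≤ x := (le_max_left _ _).trans hx
  have hxx1 : x1 ≤ x := (le_max_left _ _).trans ((le_max_right _ _).trans hx)
  have hx16 : 16 ≤ x := (le_max_right _ _).trans ((le_max_right _ _).trans hx)
  obtain ⟨f1, f2⟩ := hx1 x hxx1
  have hxpos : 0 < x := by linarith
  obtain ⟨hFm, hF1, hF2⟩ := hal_F g hg.2.2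
  have a1 := H1 g hg x (by linarith)
  have a2 := hx₀ x hxx0 (fun u => ‖Sg g u‖) hFm hF1 hF2
  have a3 := H3 g hg.2.2 x hx16
  set l := Real.log x with hl
  have hl1 : 1 ≤ l := by
    rw [hl, ← Real.log_exp 1]
    apply Real.log_le_log (Real.exp_pos 1)
    have := Real.exp_one_lt_d9
    linarith
  have hlpos : 0 < l := by linarith
  set K := ⌊Real.log l / Real.log 2⌋₊ with hK
  have hlog2 : 0 < Real.log 2 := Real.log_pos (by norm_num)
  have hK1 : (2 : ℝ) ^ K ≤ l := by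
    have h6 : (K : ℝ) ≤ Real.log l / Real.log 2 :=
      Nat.floor_le (div_nonneg (Real.log_nonneg hl1) hlog2.le)
    rw [le_div_iff₀ hlog2] at h6
    have h7 : Real.log ((2 : ℝ) ^ K) ≤ Real.log l := by
      rw [Real.log_pow]
      exact h6
    exact (Real.log_le_log_iff (by positivity) hlpos).1 h7
  set T := l * Real.exp (-(B / 2)) with hT
  have hT0 : 0 ≤ T := by positivity
  have hTsq : T ^ 2 = l ^ 2 * Real.exp (-B) := by
    rw [hT, mul_pow, ← Real.exp_nat_mul]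
    congr 2
    push_cast
    ring
  -- the terms of the sum
  have hterm : ∀ i ∈ range (K + 1), (2 : ℝ) ^ (-(i / 2 : ℝ)) * Real.sqrt (I1 g ((2 : ℝ) ^ (-(i : ℝ)))) ≤
      Real.sqrt C4 * (C5 * min ((2 : ℝ) ^ i) (T ^ 2 / 2 ^ i)) +
        Real.sqrt C4 * ((2 : ℝ) ^ K) ^ 2 / Real.sqrt x := by
    intro i hi
    rw [mem_range] at hi
    have hiK : (2 : ℝ) ^ i ≤ 2 ^ K := pow_le_pow_right₀ (by norm_num) (by omega)
    have hσ : (2 : ℝ) ^ (-(i : ℝ)) = ((2 : ℝ) ^ i)⁻¹ := by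
      rw [Real.rpow_neg (by norm_num), Real.rpow_natCast]
    have hi0 : (0 : ℝ) < 2 ^ i := by positivity
    have hi1 : (1 : ℝ) ≤ 2 ^ i := one_le_pow₀ (by norm_num)
    have hσ0 : 0 < ((2 : ℝ) ^ i)⁻¹ := by positivity
    have hσ1 : ((2 : ℝ) ^ i)⁻¹ ≤ 1 := inv_le_one_of_one_le₀ hi1
    have hσl : 1 / l ≤ ((2 : ℝ) ^ i)⁻¹ := by
      rw [one_div]
      exact inv_anti₀ hi0 (hiK.trans hK1)
    have b1 : ∀ y : ℝ, |y| ≤ x → ‖Gv g (((2 : ℝ) ^ i)⁻¹) y‖ ≤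
        C5 * min ((2 : ℝ) ^ i) (T ^ 2 / 2 ^ i) := by
      intro y hy
      obtain ⟨c1, c2⟩ := H5 g hg x B y (((2 : ℝ) ^ i)⁻¹) (by linarith) (hdist y hy) hσl hσ1
      rw [div_inv_eq_mul] at c1
      rw [← hl] at c2
      have c3 : C5 * (((2 : ℝ) ^ i)⁻¹ * l ^ 2 * Real.exp (-B)) = C5 * (T ^ 2 / 2 ^ i) := by
        rw [hTsq]
        field_simp
      rw [c3] at c2
      rcases le_total ((2 : ℝ) ^ i) (T ^ 2 / 2 ^ i) with h6 | h6
      · rw [min_eq_left h6]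
        exact c1
      · rw [min_eq_right h6]
        exact c2
    have hmin0 : 0 ≤ min ((2 : ℝ) ^ i) (T ^ 2 / 2 ^ i) := le_min hi0.le (by positivity)
    have b2 := H4 g hg (((2 : ℝ) ^ i)⁻¹) x (C5 * min ((2 : ℝ) ^ i) (T ^ 2 / 2 ^ i)) hσ0 hσ1
      (by linarith) (mul_nonneg hC5.le hmin0) b1
    rw [hσ]
    set m := min ((2 : ℝ) ^ i) (T ^ 2 / 2 ^ i) with hm
    have hsx : 0 < Real.sqrt x := Real.sqrt_pos.2 hxpos
    have hsqi : 0 < Real.sqrt ((2 : ℝ) ^ i) := Real.sqrt_pos.2 hi0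
    have b3 : Real.sqrt (I1 g (((2 : ℝ) ^ i)⁻¹)) ≤
        Real.sqrt C4 * (C5 * m * Real.sqrt ((2 : ℝ) ^ i) + ((2 : ℝ) ^ i) ^ 2 / Real.sqrt x) := by
      apply Real.sqrt_le_iff.2
      refine ⟨by positivity, b2.trans ?_⟩
      rw [mul_pow (Real.sqrt C4), Real.sq_sqrt hC4.le]
      apply mul_le_mul_of_nonneg_left _ hC4.le
      have c1 : (C5 * m) ^ 2 / ((2 : ℝ) ^ i)⁻¹ = (C5 * m * Real.sqrt ((2 : ℝ) ^ i)) ^ 2 := by
        rw [mul_pow _ (Real.sqrt _), Real.sq_sqrt hi0.le, div_inv_eq_mul]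
      have c2 : 1 / ((((2 : ℝ) ^ i)⁻¹) ^ 4 * x) = (((2 : ℝ) ^ i) ^ 2 / Real.sqrt x) ^ 2 := by
        rw [div_pow, Real.sq_sqrt hxpos.le]
        field_simp
      rw [c1, c2]
      have c3 : 0 ≤ C5 * m * Real.sqrt ((2 : ℝ) ^ i) := by positivity
      have c4 : 0 ≤ ((2 : ℝ) ^ i) ^ 2 / Real.sqrt x := by positivity
      nlinarith [mul_nonneg c3 c4]
    have hhalf : (2 : ℝ) ^ (-(i / 2 : ℝ)) = (Real.sqrt ((2 : ℝ) ^ i))⁻¹ := by
      rw [Real.rpow_neg (by norm_num), Real.sqrt_eq_rpow, ← Real.rpow_natCast, ← Real.rpow_mul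
        (by norm_num)]
      congr 2
      ring
    have hs1 : 1 ≤ Real.sqrt ((2 : ℝ) ^ i) := Real.one_le_sqrt.2 hi1
    calc (2 : ℝ) ^ (-(i / 2 : ℝ)) * Real.sqrt (I1 g (((2 : ℝ) ^ i)⁻¹))
        ≤ (2 : ℝ) ^ (-(i / 2 : ℝ)) * (Real.sqrt C4 * (C5 * m * Real.sqrt ((2 : ℝ) ^ i) +
          ((2 : ℝ) ^ i) ^ 2 / Real.sqrt x)) := mul_le_mul_of_nonneg_left b3 (by positivity)
      _ = Real.sqrt C4 * (C5 * m) + Real.sqrt C4 * ((2 : ℝ) ^ i) ^ 2 / Real.sqrt x *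
          (Real.sqrt ((2 : ℝ) ^ i))⁻¹ := by
          rw [hhalf]
          field_simp
      _ ≤ Real.sqrt C4 * (C5 * m) + Real.sqrt C4 * ((2 : ℝ) ^ K) ^ 2 / Real.sqrt x * 1 := by
          have d1 : Real.sqrt C4 * ((2 : ℝ) ^ i) ^ 2 / Real.sqrt x ≤
              Real.sqrt C4 * ((2 : ℝ) ^ K) ^ 2 / Real.sqrt x := by
            apply div_le_div_of_nonneg_right _ hsx.le
            apply mul_le_mul_of_nonneg_left _ hs4.le
            exact pow_le_pow_left₀ hi0.le hiK 2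
          have d2 : (Real.sqrt ((2 : ℝ) ^ i))⁻¹ ≤ 1 := inv_le_one_of_one_le₀ hs1
          have d3 : 0 ≤ Real.sqrt C4 * ((2 : ℝ) ^ K) ^ 2 / Real.sqrt x := by positivity
          have d4 : 0 ≤ (Real.sqrt ((2 : ℝ) ^ i))⁻¹ := by positivity
          have d5 := mul_le_mul d1 d2 d4 d3
          linarith
      _ = _ := by rw [mul_one]
  have hsum : ∑ i ∈ range (K + 1), (2 : ℝ) ^ (-(i / 2 : ℝ)) *
      Real.sqrt (I1 g ((2 : ℝ) ^ (-(i : ℝ)))) ≤ Real.sqrt C4 * (4 * C5 * T) + Real.sqrt C4 := by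
    refine (Finset.sum_le_sum hterm).trans ?_
    rw [Finset.sum_add_distrib]
    apply add_le_add
    · rw [← Finset.mul_sum, ← Finset.mul_sum]
      apply mul_le_mul_of_nonneg_left _ hs4.le
      have := hal_geom' T hT0 (K + 1)
      nlinarith [mul_le_mul_of_nonneg_left this hC5.le]
    · rw [Finset.sum_const, card_range, nsmul_eq_mul]
      have hsx : 0 < Real.sqrt x := Real.sqrt_pos.2 hxpos
      have c1 : (((K + 1 : ℕ)) : ℝ) ≤ l := by
        have c2 : K + 1 ≤ 2 ^ K := Nat.lt_two_pow_self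
        have c3 : (((K + 1 : ℕ)) : ℝ) ≤ ((2 ^ K : ℕ) : ℝ) := by exact_mod_cast c2
        push_cast at c3 ⊢
        linarith
      have c4 : ((2 : ℝ) ^ K) ^ 2 ≤ l ^ 2 := pow_le_pow_left₀ (by positivity) hK1 2
      have c5 : ((K + 1 : ℕ) : ℝ) * ((2 : ℝ) ^ K) ^ 2 ≤ Real.sqrt x := by
        calc ((K + 1 : ℕ) : ℝ) * ((2 : ℝ) ^ K) ^ 2 ≤ l * l ^ 2 :=
              mul_le_mul c1 c4 (by positivity) hlpos.le
          _ = l ^ 3 := by ring
          _ ≤ Real.sqrt x := f1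
      calc ((K + 1 : ℕ) : ℝ) * (Real.sqrt C4 * ((2 : ℝ) ^ K) ^ 2 / Real.sqrt x)
          = Real.sqrt C4 * ((((K + 1 : ℕ) : ℝ) * ((2 : ℝ) ^ K) ^ 2) / Real.sqrt x) := by ring
        _ ≤ Real.sqrt C4 * 1 := by
          apply mul_le_mul_of_nonneg_left _ hs4.le
          rw [div_le_one hsx]
          exact c5
        _ = Real.sqrt C4 := mul_one _
  -- assembly
  have hint : ∫ u in (1 : ℝ)..x, ‖Sg g u‖ / u ^ 2 ≤ C3 * (1 + Real.log l) +
      C3 * (Real.sqrt C4 * (4 * C5 * T) + Real.sqrt C4) := by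
    refine a3.trans ?_
    have := mul_le_mul_of_nonneg_left hsum hC3.le
    linarith
  have hfin : ‖Sg g x‖ * l ≤ (4 * C2 * C3 * Real.sqrt C4 * C5 + C2 + 1) *
      (Real.exp (-(B / 2)) + 1 / h) * x * l := by
    have c1 : C2 * x * (∫ u in (1 : ℝ)..x, ‖Sg g u‖ / u ^ 2) ≤ C2 * x * (C3 * (1 + Real.log l) +
        C3 * (Real.sqrt C4 * (4 * C5 * T) + Real.sqrt C4)) :=
      mul_le_mul_of_nonneg_left hint (by positivity)
    have c2 := mul_le_mul_of_nonneg_left f2 hxpos.le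
    have hE : 0 < Real.exp (-(B / 2)) := Real.exp_pos _
    have hh0 : 0 < h := by linarith
    have c3 : ‖Sg g x‖ * l ≤ x * (4 * C2 * C3 * Real.sqrt C4 * C5 * T) + x * (l / h) +
        C2 * x * l / h := by
      calc ‖Sg g x‖ * l ≤ _ := a1
        _ ≤ (C2 * x * (∫ u in (1 : ℝ)..x, ‖Sg g u‖ / u ^ 2) + C2 * x * l / h) + C1 * x := by
          linarith
        _ ≤ _ := by
          nlinarith
    refine c3.trans ?_
    rw [hT]
    have c4 : 0 ≤ (C2 + 1) * Real.exp (-(B / 2)) * x * l := by positivity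
    have c5 : 0 ≤ 4 * C2 * C3 * Real.sqrt C4 * C5 * (1 / h) * x * l := by positivity
    have c6 : (4 * C2 * C3 * Real.sqrt C4 * C5 + C2 + 1) *
      (Real.exp (-(B / 2)) + 1 / h) * x * l = x * (4 * C2 * C3 * Real.sqrt C4 * C5 *
        (l * Real.exp (-(B / 2)))) + x * (l / h) + C2 * x * l / h +
        (C2 + 1) * Real.exp (-(B / 2)) * x * l + 4 * C2 * C3 * Real.sqrt C4 * C5 * (1 / h) * x * l := by
      field_simp
      ring
    rw [c6]
    linarith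
  exact le_of_mul_le_mul_right hfin hlpos

end Pool.Agent.Helper40.MR
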